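import Pool.Agent.Helper23.Feas.Main

set_option autoImplicit false

open Pool.Agent.Helper23.Feas

namespace Pool.Agent.Results.MP_9c7f60_co.FeasibleRegions

theorem result (B : Set (Pm 3)) (hB : 2 ≤ B.ncard) (K : ℕ) :
    feasibleRegion B (K + 1) = region B K :=
  main B hB K

end Pool.Agent.Results.MP_9c7f60_co.FeasibleRegions
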